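import Mathlib
import Pool.Agent.R246.SK.Defs

/-!
# MP_3f9991_gt, piece SK-COV: conformal covariance of `Λ`
-/

open scoped ContDiff ComplexConjugate
open Filter MeasureTheory

namespace Pool.Agent.R64.SK

open Pool.Agent.R246.SK

noncomputable section

lemma ee_cont (n : ℤ) : Continuous (ee n) := by
  unfold ee
  fun_prop

lemma ee_norm (n : ℤ) (t : ℝ) : ‖ee n t‖ = 1 := by
  unfold ee
  have : Complex.I * (n : ℂ) * (t : ℂ) = ((n * t : ℝ) : ℂ) * Complex.I := by push_cast; ring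
  rw [this, Complex.norm_exp_ofReal_mul_I]

lemma ee_add (n m : ℤ) (t : ℝ) : ee (n + m) t = ee n t * ee m t := by
  unfold ee
  rw [← Complex.exp_add]
  congr 1
  push_cast
  ring

lemma ee_pow (n : ℕ) (t : ℝ) : ee (n : ℤ) t = ee 1 t ^ n := by
  unfold ee
  rw [← Complex.exp_nat_mul]
  congr 1
  push_cast
  ring

lemma ee_conj (n : ℤ) (t : ℝ) : conj (ee n t) = ee (-n) t := by
  unfold ee
  rw [← Complex.exp_conj]
  congr 1
  simp

lemma circleMap_ee (t : ℝ) : circleMap 0 1 t = ee 1 t := by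
  unfold circleMap ee
  simp [mul_comm]

/-- Cauchy -/
lemma cauchy (w : ℂ) (hw : ‖w‖ < 1) (φ : ℝ → ℝ)
    (hφ : ∀ t, ee 1 (φ t) = (ee 1 t + w) / (1 + conj w * ee 1 t)) (n k : ℕ) :
    ∫ t in (0 : ℝ)..(2 * Real.pi), ee n (φ t) * ee ((k : ℤ) + 1) t = 0 := by
  have hne : ∀ z : ℂ, ‖z‖ ≤ 1 → 1 + conj w * z ≠ 0 := by
    intro z hz h
    have h1 : conj w * z = -1 := by linear_combination h
    have h2 : ‖conj w * z‖ = 1 := by rw [h1]; simp
    rw [norm_mul, RCLike.norm_conj] at h2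
    have h3 : ‖w‖ * ‖z‖ ≤ ‖w‖ * 1 := mul_le_mul_of_nonneg_left hz (norm_nonneg _)
    linarith
  have hd : ∀ z : ℂ, ‖z‖ ≤ 1 →
      DifferentiableAt ℂ (fun z => ((z + w) / (1 + conj w * z)) ^ n * z ^ k) z := by
    intro z hz
    have := hne z hz
    fun_prop (disch := assumption)
  have hc := Complex.circleIntegral_eq_zero_of_differentiable_on_off_countable (c := 0) (R := 1)
    zero_le_one (s := ∅) Set.countable_empty
    (f := fun z => ((z + w) / (1 + conj w * z)) ^ n * z ^ k)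
    (fun z hz => (hd z (by simpa using hz)).continuousAt.continuousWithinAt)
    (fun z hz => hd z (le_of_lt (by simpa using hz.1)))
  unfold circleIntegral at hc
  have he : ∀ t : ℝ, deriv (circleMap 0 1) t • (((circleMap 0 1 t + w) /
      (1 + conj w * circleMap 0 1 t)) ^ n * circleMap 0 1 t ^ k) =
      Complex.I * (ee n (φ t) * ee ((k : ℤ) + 1) t) := by
    intro t
    rw [deriv_circleMap, circleMap_ee, smul_eq_mul, ← hφ, ← ee_pow, ee_add, ee_pow k]
    ring
  have h2 : ∫ t in (0 : ℝ)..(2 * Real.pi), Complex.I * (ee n (φ t) * ee ((k : ℤ) + 1) t) = 0 := by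
    rw [← hc]
    apply intervalIntegral.integral_congr
    intro t _
    exact (he t).symm
  rw [intervalIntegral.integral_const_mul] at h2
  exact (mul_eq_zero.1 h2).resolve_left Complex.I_ne_zero

lemma fc_ee_neg (w : ℂ) (hw : ‖w‖ < 1) (φ : ℝ → ℝ)
    (hφ : ∀ t, ee 1 (φ t) = (ee 1 t + w) / (1 + conj w * ee 1 t)) {n m : ℤ} (hn : 0 ≤ n)
    (hm : m < 0) : fc (fun t => ee n (φ t)) m = 0 := by
  unfold fc
  obtain ⟨n', rfl⟩ := Int.eq_ofNat_of_zero_le hn
  obtain ⟨k, hk⟩ := Int.eq_ofNat_of_zero_le (show 0 ≤ -m - 1 by omega)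
  have : -m = (k : ℤ) + 1 := by omega
  rw [this, cauchy w hw φ hφ n' k, mul_zero]

lemma fc_ee_pos (w : ℂ) (hw : ‖w‖ < 1) (φ : ℝ → ℝ)
    (hφ : ∀ t, ee 1 (φ t) = (ee 1 t + w) / (1 + conj w * ee 1 t)) {n m : ℤ} (hn : n ≤ 0)
    (hm : 0 < m) : fc (fun t => ee n (φ t)) m = 0 := by
  unfold fc
  obtain ⟨n', hn'⟩ := Int.eq_ofNat_of_zero_le (show 0 ≤ -n by omega)
  obtain ⟨k, hk⟩ := Int.eq_ofNat_of_zero_le (show 0 ≤ m - 1 by omega)
  have hm' : -m = -((k : ℤ) + 1) := by omega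
  have hn'' : n = -(n' : ℤ) := by omega
  have h1 := cauchy w hw φ hφ n' k
  have h2 : ∫ t in (0 : ℝ)..(2 * Real.pi), ee n (φ t) * ee (-m) t =
      conj (∫ t in (0 : ℝ)..(2 * Real.pi), ee n' (φ t) * ee ((k : ℤ) + 1) t) := by
    rw [intervalIntegral.integral_of_le (by positivity),
      intervalIntegral.integral_of_le (by positivity), ← integral_conj]
    congr 1
    funext t
    rw [map_mul, ee_conj, ee_conj, hn'', hm']
  rw [h2, h1]
  simp

lemma SP_comp {f : ℝ → ℂ} (hf : SP f) {φ : ℝ → ℝ} (h1 : ContDiff ℝ ∞ φ)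
    (h2 : ∀ t, φ (t + 2 * Real.pi) = φ t + 2 * Real.pi) : SP (fun t => f (φ t)) :=
  ⟨hf.1.comp h1, fun t => by show f (φ (t + 2 * Real.pi)) = f (φ t); rw [h2, hf.2]⟩

lemma SP_cont {f : ℝ → ℂ} (hf : SP f) : Continuous f := hf.1.continuous

/-- swapping sum and integral -/
lemma fc_comp (h1 : S_FT1) {u : ℝ → ℂ} (hu : SP u) {φ : ℝ → ℝ} (hφ : Continuous φ) (m : ℤ) :
    HasSum (fun n : ℤ => fc u n * fc (fun t => ee n (φ t)) m) (fc (fun t => u (φ t)) m) := by
  have hs : Summable (fun n : ℤ => ‖fc u n‖) := by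
    have h2 := ((h1 u hu).2.1 0).summable.norm
    refine h2.congr ?_
    intro n
    rw [norm_mul, ee_norm, mul_one]
  have key : HasSum (fun n : ℤ => ∫ t in (0 : ℝ)..(2 * Real.pi),
      fc u n * ee n (φ t) * ee (-m) t) (∫ t in (0 : ℝ)..(2 * Real.pi), u (φ t) * ee (-m) t) := by
    apply intervalIntegral.hasSum_integral_of_dominated_convergence (fun n _ => ‖fc u n‖)
    · intro n
      apply Continuous.aestronglyMeasurable
      exact (continuous_const.mul ((ee_cont n).comp hφ)).mul (ee_cont (-m))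
    · intro n
      apply Eventually.of_forall
      intro t _
      rw [norm_mul, norm_mul, ee_norm, ee_norm, mul_one, mul_one]
    · apply Eventually.of_forall
      intro t _
      exact hs
    · exact intervalIntegrable_const
    · apply Eventually.of_forall
      intro t _
      exact ((h1 u hu).2.1 (φ t)).mul_right (ee (-m) t)
  have key2 := key.mul_left ((1 / (2 * Real.pi) : ℝ) : ℂ)
  have e : (fun n : ℤ => fc u n * fc (fun t => ee n (φ t)) m) = fun n : ℤ =>
      ((1 / (2 * Real.pi) : ℝ) : ℂ) * ∫ t in (0 : ℝ)..(2 * Real.pi),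
        fc u n * ee n (φ t) * ee (-m) t := by
    funext n
    have e2 : ∫ t in (0 : ℝ)..(2 * Real.pi), fc u n * ee n (φ t) * ee (-m) t =
        fc u n * ∫ t in (0 : ℝ)..(2 * Real.pi), ee n (φ t) * ee (-m) t := by
      rw [← intervalIntegral.integral_const_mul]
      apply intervalIntegral.integral_congr
      intro t _
      show fc u n * ee n (φ t) * ee (-m) t = fc u n * (ee n (φ t) * ee (-m) t)
      ring
    rw [e2]
    show fc u n * (((1 / (2 * Real.pi) : ℝ) : ℂ) * ∫ t in (0 : ℝ)..(2 * Real.pi),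
      ee n (φ t) * ee (-m) t) = _
    ring
  rw [e]
  exact key2

lemma fc_add {f g : ℝ → ℂ} (hf : Continuous f) (hg : Continuous g) (n : ℤ) :
    fc (fun t => f t + g t) n = fc f n + fc g n := by
  unfold fc
  rw [← mul_add, ← intervalIntegral.integral_add]
  · congr 1
    apply intervalIntegral.integral_congr
    intro t _
    show (f t + g t) * ee (-n) t = f t * ee (-n) t + g t * ee (-n) t
    ring
  · exact (hf.mul (ee_cont _)).intervalIntegrable _ _
  · exact (hg.mul (ee_cont _)).intervalIntegrable _ _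

/-- `Λ` through the two parts -/
lemma lam_parts (h1 : S_FT1) {f1 f2 : ℝ → ℂ} (hf1 : SP f1) (hf2 : SP f2)
    (z1 : ∀ n : ℤ, n < 0 → fc f1 n = 0) (z2 : ∀ n : ℤ, 0 < n → fc f2 n = 0) (t : ℝ) :
    Lam (fun s => f1 s + f2 s) t = -Complex.I * deriv f1 t + Complex.I * deriv f2 t := by
  obtain ⟨_, _, d1, e1⟩ := h1 f1 hf1
  obtain ⟨_, _, d2, e2⟩ := h1 f2 hf2
  have s1 := (h1 _ d1).2.1 t
  have s2 := (h1 _ d2).2.1 t
  have s3 := (s1.mul_left (-Complex.I)).add (s2.mul_left Complex.I)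
  unfold Lam
  rw [← s3.tsum_eq]
  congr 1
  funext n
  rw [fc_add (SP_cont hf1) (SP_cont hf2), e1, e2]
  have hI : Complex.I * Complex.I = -1 := Complex.I_mul_I
  rcases lt_trichotomy n 0 with h | h | h
  · rw [z1 n h, abs_of_neg h]
    push_cast
    linear_combination (n : ℂ) * fc f2 n * ee n t * (-hI)
  · subst h
    simp
  · rw [z2 n h, abs_of_pos h]
    linear_combination (n : ℂ) * fc f1 n * ee n t * hI

theorem s_cov (h1 : S_FT1) (h2 : S_FT2) : S_COV := by
  intro w φ ψ hw hL f hf t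
  obtain ⟨hφs, _, hφp, _, _, _, _, _, _, hφe⟩ := hL
  obtain ⟨hRD, hsum, _, _⟩ := h1 f hf
  obtain ⟨cp, hcp⟩ : ∃ cp : ℤ → ℂ, cp = fun n => if 0 ≤ n then fc f n else 0 := ⟨_, rfl⟩
  obtain ⟨cm, hcm⟩ : ∃ cm : ℤ → ℂ, cm = fun n => if 0 ≤ n then 0 else fc f n := ⟨_, rfl⟩
  have rp : RD cp := by
    intro q
    obtain ⟨C, hC⟩ := hRD q
    refine ⟨C, fun n => le_trans ?_ (hC n)⟩
    apply mul_le_mul_of_nonneg_right _ (by positivity)
    rw [hcp]
    show ‖(if 0 ≤ n then fc f n else 0)‖ ≤ ‖fc f n‖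
    split_ifs
    · exact le_rfl
    · simp
  have rm : RD cm := by
    intro q
    obtain ⟨C, hC⟩ := hRD q
    refine ⟨C, fun n => le_trans ?_ (hC n)⟩
    apply mul_le_mul_of_nonneg_right _ (by positivity)
    rw [hcm]
    show ‖(if 0 ≤ n then 0 else fc f n)‖ ≤ ‖fc f n‖
    split_ifs
    · simp
    · exact le_rfl
  obtain ⟨fp, hfp⟩ : ∃ fp : ℝ → ℂ, fp = fun t => ∑' n : ℤ, cp n * ee n t := ⟨_, rfl⟩
  obtain ⟨fm, hfm⟩ : ∃ fm : ℝ → ℂ, fm = fun t => ∑' n : ℤ, cm n * ee n t := ⟨_, rfl⟩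
  obtain ⟨sp, cpe⟩ := h2 cp rp
  obtain ⟨sm, cme⟩ := h2 cm rm
  rw [← hfp] at sp cpe
  rw [← hfm] at sm cme
  have hfeq : f = fun s => fp s + fm s := by
    funext s
    have a1 := (h1 fp sp).2.1 s
    have a2 := (h1 fm sm).2.1 s
    have a3 := a1.add a2
    have a4 := hsum s
    refine a4.unique ?_
    have e : (fun n : ℤ => fc f n * ee n s) = fun n : ℤ => fc fp n * ee n s + fc fm n * ee n s := by
      funext n
      rw [cpe, cme, hcp, hcm]
      show fc f n * ee n s = (if 0 ≤ n then fc f n else 0) * ee n s +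
        (if 0 ≤ n then 0 else fc f n) * ee n s
      split_ifs <;> ring
    rw [e]
    exact a3
  have zp : ∀ n : ℤ, n < 0 → fc fp n = 0 := by
    intro n hn
    rw [cpe, hcp]
    show (if 0 ≤ n then fc f n else 0) = 0
    rw [if_neg (by omega)]
  have zm : ∀ n : ℤ, 0 ≤ n → fc fm n = 0 := by
    intro n hn
    rw [cme, hcm]
    show (if 0 ≤ n then 0 else fc f n) = 0
    rw [if_pos hn]
  have gp : SP (fun s => fp (φ s)) := SP_comp sp hφs hφp
  have gm : SP (fun s => fm (φ s)) := SP_comp sm hφs hφp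
  have hφc : Continuous φ := hφs.continuous
  have zgp : ∀ m : ℤ, m < 0 → fc (fun s => fp (φ s)) m = 0 := by
    intro m hm
    have a := fc_comp h1 sp hφc m
    refine a.unique ?_
    have e : (fun n : ℤ => fc fp n * fc (fun t => ee n (φ t)) m) = fun _ => 0 := by
      funext n
      by_cases hn : 0 ≤ n
      · rw [fc_ee_neg w hw φ hφe hn hm, mul_zero]
      · rw [zp n (by omega), zero_mul]
    rw [e]
    exact hasSum_zero
  have zgm : ∀ m : ℤ, 0 < m → fc (fun s => fm (φ s)) m = 0 := by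
    intro m hm
    have a := fc_comp h1 sm hφc m
    refine a.unique ?_
    have e : (fun n : ℤ => fc fm n * fc (fun t => ee n (φ t)) m) = fun _ => 0 := by
      funext n
      by_cases hn : 0 ≤ n
      · rw [zm n hn, zero_mul]
      · rw [fc_ee_pos w hw φ hφe (by omega) hm, mul_zero]
    rw [e]
    exact hasSum_zero
  have L1 := lam_parts h1 gp gm zgp zgm t
  have L2 := lam_parts h1 sp sm zp (fun n hn => zm n hn.le) (φ t)
  have hg : (fun s => f (φ s)) = fun s => fp (φ s) + fm (φ s) := by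
    funext s
    rw [hfeq]
  have dφ : DifferentiableAt ℝ φ t := (hφs.differentiable (by simp)).differentiableAt
  have D : ∀ u : ℝ → ℂ, SP u → deriv (fun s => u (φ s)) t = ((deriv φ t : ℝ) : ℂ) * deriv u (φ t) := by
    intro u hu
    have du : DifferentiableAt ℝ u (φ t) := (hu.1.differentiable (by simp)).differentiableAt
    have := HasDerivAt.scomp t du.hasDerivAt dφ.hasDerivAt
    rw [show (fun s => u (φ s)) = u ∘ φ from rfl, this.deriv]
    simp
  rw [hg, L1, D fp sp, D fm sm]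
  have hf2 : Lam f (φ t) = -Complex.I * deriv fp (φ t) + Complex.I * deriv fm (φ t) := by
    rw [← L2, ← hfeq]
  rw [hf2]
  ring

end

end Pool.Agent.R64.SK
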